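import Mathlib
import Pool.Agent.Helper398.Cyclic
import Pool.Agent.Helper398.Final

set_option autoImplicit false

namespace Pool.Agent.Results.MP_2e436f_co.LargeSets

/-- The set of sums of the nonempty subsets of A. -/
def SigmaStar {n : ℕ} (A : Finset (ZMod n)) : Set (ZMod n) :=
  {s | ∃ B : Finset (ZMod n), B ⊆ A ∧ B.Nonempty ∧ ∑ b ∈ B, b = s}

/-- The values of the number of nonempty subset sums over the asymmetric m-element subsets of
the integers modulo n. -/
def values (n m : ℕ) : Set ℕ :=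
  {k | ∃ A : Finset (ZMod n), A.card = m ∧ (∀ a ∈ A, -a ∉ A) ∧ (SigmaStar A).ncard = k}

/-- The minimum number of nonempty subset sums of an asymmetric m-element subset of the integers
modulo n. -/
noncomputable def rhoA (n m : ℕ) : ℕ := sInf (values n m)

/-- The divisor formula: the minimum, over the divisors d of n with m ≤ d + ⌊(d-1)/2⌋, of
d * (1 + max(0, m - ⌊(d-1)/2⌋)). -/
noncomputable def divisorFormula (n m : ℕ) : ℕ :=
  sInf {v | ∃ d : ℕ, d ∣ n ∧ m ≤ d + (d - 1) / 2 ∧ v = d * (1 + (m - (d - 1) / 2))}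

theorem sigma_subset {n : ℕ} (A : Finset (ZMod n)) : SigmaStar A ⊆ (A.subsetSum : Set (ZMod n)) := by
  rintro s ⟨B, hB, -, hs⟩
  rw [Finset.mem_coe, Finset.mem_subsetSum_iff]
  exact ⟨B, hB, hs⟩

theorem sigma_ncard {n : ℕ} (A : Finset (ZMod n)) (h0 : (0 : ZMod n) ∈ SigmaStar A) :
    (SigmaStar A).ncard = A.subsetSum.card := by
  rw [← Set.ncard_coe_finset]
  congr 1
  apply Set.Subset.antisymm (sigma_subset A)
  intro s hs
  rw [Finset.mem_coe, Finset.mem_subsetSum_iff] at hs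
  obtain ⟨B, hB, hs⟩ := hs
  by_cases hne : B.Nonempty
  · exact ⟨B, hB, hne, hs⟩
  · rw [Finset.not_nonempty_iff_eq_empty] at hne
    subst hne
    rw [Finset.sum_empty] at hs
    rw [← hs]; exact h0

/-- For every ε > 0 and all sufficiently large n, the value of rhoA(n, m) is given by the divisor
formula for all m with (9/2 + ε) n ≤ m² (and 2m < n, i.e. m ≤ ⌊(n-1)/2⌋). -/
theorem result (ε : ℝ) (hε : 0 < ε) : ∃ N : ℕ, ∀ n : ℕ, N ≤ n → ∀ m : ℕ, 2 * m < n →
    (9 / 2 + ε) * n ≤ (m : ℝ) ^ 2 → rhoA n m = divisorFormula n m := by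
  obtain ⟨N, hN⟩ := Pool.Agent.Helper398.asym_lower ε hε
  obtain ⟨M, hM⟩ := Pool.Agent.Helper398.lower (1 / 4) (by norm_num)
  refine ⟨max N (M ^ 2), fun n hn m hm2 hm => ?_⟩
  have hn0 : 0 < n := by omega
  have : NeZero n := ⟨by omega⟩
  have hne : {v | ∃ d : ℕ, d ∣ n ∧ m ≤ d + (d - 1) / 2 ∧
      v = d * (1 + (m - (d - 1) / 2))}.Nonempty :=
    ⟨_, n, dvd_rfl, by omega, rfl⟩
  obtain ⟨d, hd, hmd, hv⟩ := Nat.sInf_mem hne
  obtain ⟨A, hA1, hA2, hA3⟩ := Pool.Agent.Helper398.asym_upper n m d hn0 hm2 hd hmd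
  have hval : (values n m).Nonempty := ⟨_, A, hA1, hA2, rfl⟩
  apply le_antisymm
  · have h1 : rhoA n m ≤ (SigmaStar A).ncard := Nat.sInf_le ⟨A, hA1, hA2, rfl⟩
    have h2 : (SigmaStar A).ncard ≤ A.subsetSum.card := by
      rw [← Set.ncard_coe_finset]
      exact Set.ncard_le_ncard (sigma_subset A) (Set.toFinite _)
    unfold divisorFormula
    rw [hv]
    omega
  · obtain ⟨B, hB1, hB2, hB3⟩ := Nat.sInf_mem hval
    obtain ⟨e, he1, he2, he3⟩ := hN n (le_trans (le_max_left _ _) hn) m hm2 hm B hB1 hB2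
    have h0 : (0 : ZMod n) ∈ SigmaStar B := by
      by_contra hcon
      have hZ : Pool.Agent.Helper398.ZSF B := by
        intro C hC hne hs
        exact hcon ⟨C, hC, hne, hs⟩
      have hMB : M ≤ B.card := by
        rw [hB1]
        have h3 : M ^ 2 ≤ n := le_trans (le_max_right _ _) hn
        have h4 : (M : ℝ) ^ 2 ≤ (m : ℝ) ^ 2 := by
          have h5 : ((M ^ 2 : ℕ) : ℝ) ≤ n := by exact_mod_cast h3
          push_cast at h5
          have h6 : (0 : ℝ) ≤ n := Nat.cast_nonneg _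
          nlinarith
        have h5 : M ^ 2 ≤ m ^ 2 := by exact_mod_cast h4
        exact (Nat.pow_le_pow_iff_left (by norm_num)).1 h5
      have h3 := hM (ZMod n) B hMB hZ
      have h4 : B.subsetSum.card ≤ n := by
        have := Finset.card_le_univ B.subsetSum
        rwa [ZMod.card] at this
      have h5 : (B.subsetSum.card : ℝ) ≤ n := by exact_mod_cast h4
      rw [hB1] at h3
      have h6 : (0 : ℝ) ≤ n := Nat.cast_nonneg _
      nlinarith
    rw [sigma_ncard B h0] at hB3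
    have h1 : divisorFormula n m ≤ e * (1 + (m - (e - 1) / 2)) :=
      Nat.sInf_le ⟨e, he1, he2, rfl⟩
    unfold rhoA
    rw [← hB3]
    omega

end Pool.Agent.Results.MP_2e436f_co.LargeSets
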